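import Mathlib

/-!
Kolmogorov-Sinai entropy, pressure, and saddle points.
-/

open MeasureTheory Filter

namespace Pool.Agent.Work.MP_636246_an

/-- Shannon entropy of the join of the partitions `ξ, f⁻¹ ξ, …, f^{-(n-1)} ξ`, where the finite
partition `ξ` is given as a labelling map. -/
noncomputable def blockEntropy {X : Type} [MeasurableSpace X] (f : X → X) (ν : Measure X) {k : ℕ}
    (ξ : X → Fin k) (n : ℕ) : ℝ :=
  ∑ w : Fin n → Fin k, Real.negMulLog (ν.real {x | ∀ j : Fin n, ξ (f^[j] x) = w j})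

/-- Measure-theoretic (Kolmogorov-Sinai) entropy: supremum over finite measurable partitions. -/
noncomputable def ksEntropy {X : Type} [MeasurableSpace X] (f : X → X) (ν : Measure X) : EReal :=
  ⨆ (k : ℕ) (ξ : X → Fin k) (_ : Measurable ξ),
    limsup (fun n : ℕ => ((blockEntropy f ν ξ n / n : ℝ) : EReal)) atTop

/-- The invariant probability measures. -/
def invProb {X : Type} [MeasurableSpace X] (f : X → X) : Set (Measure X) :=
  {ν | IsProbabilityMeasure ν ∧ MeasurePreserving f ν ν}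

/-- The quantity `h_ν + ∫ φ dν`. -/
noncomputable def freeEnergy {X : Type} [MeasurableSpace X] (f : X → X) (φ : X → ℝ)
    (ν : Measure X) : EReal :=
  ksEntropy f ν + ((∫ x, φ x ∂ν : ℝ) : EReal)

/-- The pressure of the weight `φ`. -/
noncomputable def pressure {X : Type} [MeasurableSpace X] (f : X → X) (φ : X → ℝ) : EReal :=
  ⨆ ν ∈ invProb f, freeEnergy f φ ν

/-- The saddle points `z` with `f^n z = z`. -/
def saddles (f : ℂ × ℂ → ℂ × ℂ) (n : ℕ) : Set (ℂ × ℂ) :=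
  {z | f^[n] z = z ∧ ∃ l m : ℂ, 1 < ‖l‖ ∧ ‖m‖ < 1 ∧
    Module.End.HasEigenvalue (fderiv ℂ f^[n] z).toLinearMap l ∧
    Module.End.HasEigenvalue (fderiv ℂ f^[n] z).toLinearMap m}

/-- The Julia set `J = J⁺ ∩ J⁻` of a bijection `f`: `J⁺` (resp. `J⁻`) is the boundary of the set of
points with bounded forward (resp. backward) orbit. -/
def julia (f : ℂ × ℂ → ℂ × ℂ) : Set (ℂ × ℂ) :=
  frontier {z | ∃ R : ℝ, ∀ n : ℕ, ‖f^[n] z‖ ≤ R} ∩
    frontier {z | ∃ R : ℝ, ∀ (n : ℕ) (w : ℂ × ℂ), f^[n] w = z → ‖w‖ ≤ R}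

/-- The complex Henon map `(x, y) ↦ (y, y² + 9y/8 - x/8)`. -/
noncomputable def henon (z : ℂ × ℂ) : ℂ × ℂ := (z.2, z.2 ^ 2 + (9 / 8) * z.2 - (1 / 8) * z.1)

end Pool.Agent.Work.MP_636246_an
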