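import Pool.Agent.Work.MP_636246_an.Defs

-- merged part: Pool.Agent.Work.MP_636246_an.Gibbs
section
/-!
An upper bound for block entropies through a hidden Markov coding.
-/

open MeasureTheory Filter

namespace Pool.Agent.Work.MP_636246_an

theorem gibbs {ι : Type} [Fintype ι] (p q : ι → ℝ) (hp : ∀ i, 0 ≤ p i) (hq : ∀ i, 0 ≤ q i)
    (hpq : ∀ i, 0 < p i → 0 < q i) (hp1 : ∑ i, p i = 1) (hq1 : ∑ i, q i ≤ 1) :
    ∑ i, Real.negMulLog (p i) ≤ ∑ i, p i * (-Real.log (q i)) := by
  have key : ∀ i, Real.negMulLog (p i) ≤ p i * (-Real.log (q i)) + (q i - p i) := by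
    intro i
    rcases (hp i).eq_or_lt with h | h
    · rw [← h]
      simpa using hq i
    · have h2 := hpq i h
      have h3 := Real.log_le_sub_one_of_pos (div_pos h2 h)
      rw [Real.log_div h2.ne' h.ne'] at h3
      have h4 : p i * (Real.log (q i) - Real.log (p i)) ≤ p i * (q i / p i - 1) :=
        mul_le_mul_of_nonneg_left h3 h.le
      have h5 : p i * (q i / p i - 1) = q i - p i := by field_simp
      simp only [Real.negMulLog]
      linarith only [h4, h5]
  calc ∑ i, Real.negMulLog (p i) ≤ ∑ i, (p i * (-Real.log (q i)) + (q i - p i)) :=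
        Finset.sum_le_sum fun i _ => key i
    _ = ∑ i, p i * (-Real.log (q i)) + (∑ i, q i - ∑ i, p i) := by
        rw [Finset.sum_add_distrib, Finset.sum_sub_distrib]
    _ ≤ _ := by linarith

/-- Probability that the hidden chain started at `b` emits the word `w`. -/
noncomputable def emit {A B : Type} (S : Finset B) (Q : B → A → B → ℝ) :
    (n : ℕ) → B → (Fin n → A) → ℝ
  | 0, _, _ => 1
  | n + 1, b, w => ∑ b' ∈ S, Q b (w 0) b' * emit S Q n b' (Fin.tail w)

theorem emit_nonneg {A B : Type} (S : Finset B) (Q : B → A → B → ℝ) (hQ : ∀ b a b', 0 ≤ Q b a b')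
    (n : ℕ) (b : B) (w : Fin n → A) : 0 ≤ emit S Q n b w := by
  induction n generalizing b with
  | zero => exact zero_le_one
  | succ n ih => exact Finset.sum_nonneg fun b' _ => mul_nonneg (hQ _ _ _) (ih _ _)

theorem emit_sum {A B : Type} [Fintype A] (S : Finset B) (Q : B → A → B → ℝ)
    (hQ : ∀ b a b', 0 ≤ Q b a b') (hQ1 : ∀ b, ∑ a, ∑ b' ∈ S, Q b a b' ≤ 1)
    (n : ℕ) (b : B) : ∑ w : Fin n → A, emit S Q n b w ≤ 1 := by
  induction n generalizing b with
  | zero => simp [emit]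
  | succ n ih =>
    rw [← (Fin.consEquiv fun _ => A).sum_comp, Fintype.sum_prod_type]
    refine le_trans (Finset.sum_le_sum fun a _ => ?_) (hQ1 b)
    simp only [emit, Fin.consEquiv_apply, Fin.cons_zero]
    rw [Finset.sum_comm]
    refine Finset.sum_le_sum fun b' _ => ?_
    rw [← Finset.mul_sum]
    exact mul_le_of_le_one_right (hQ _ _ _) (ih b')

theorem emit_ge {A B : Type} (S : Finset B) (Q : B → A → B → ℝ)
    (hQ : ∀ b a b', 0 ≤ Q b a b') (n : ℕ) (ξ : ℕ → A) (η : ℕ → B) (u : ℕ → ℝ)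
    (hx : ∀ j, η j ∈ S ∧ Real.exp (-u j) ≤ Q (η j) (ξ j) (η (j + 1))) :
    Real.exp (-∑ j ∈ Finset.range n, u j) ≤ emit S Q n (η 0) (fun j : Fin n => ξ j) := by
  induction n generalizing ξ η u with
  | zero => simp [emit]
  | succ n ih =>
    have h1 := ih (fun j => ξ (j + 1)) (fun j => η (j + 1)) (fun j => u (j + 1)) fun j => hx (j + 1)
    have h2 := (hx 0).2
    have h3 : η 1 ∈ S := (hx 1).1
    rw [Finset.sum_range_succ', neg_add, Real.exp_add, mul_comm]
    simp only [emit]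
    refine le_trans ?_ (Finset.single_le_sum (f := fun b' => Q (η 0) (ξ ((0 : Fin (n + 1)) : ℕ)) b' *
      emit S Q n b' (Fin.tail fun j : Fin (n + 1) => ξ j))
      (fun b' _ => mul_nonneg (hQ _ _ _) (emit_nonneg S Q hQ _ _ _)) h3)
    exact mul_le_mul h2 h1 (Real.exp_pos _).le (hQ _ _ _)

theorem blockEntropy_le {X B : Type} [MeasurableSpace X] {f : X → X} {ν : Measure X}
    [IsProbabilityMeasure ν] (hf : Measurable f) {k : ℕ} {ξ : X → Fin k}
    (hξ : Measurable ξ) (S : Finset B) (Q : B → Fin k → B → ℝ)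
    (hQ : ∀ b a b', 0 ≤ Q b a b') (hQ1 : ∀ b, ∑ a, ∑ b' ∈ S, Q b a b' ≤ 1)
    (η : ℕ → X → B) (u : ℕ → X → ℝ) (huj : ∀ j, Integrable (u j) ν)
    (hall : ∀ᵐ x ∂ν, ∀ j, η j x ∈ S ∧
      Real.exp (-u j x) ≤ Q (η j x) (ξ (f^[j] x)) (η (j + 1) x)) (n : ℕ) :
    blockEntropy f ν ξ n ≤ Real.log S.card + ∑ j ∈ Finset.range n, ∫ x, u j x ∂ν := by
  classical
  have hS : S.Nonempty := by
    obtain ⟨x, hx⟩ := hall.exists
    exact ⟨_, (hx 0).1⟩
  have hSc : (0 : ℝ) < S.card := by exact_mod_cast hS.card_pos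
  set it : X → Fin n → Fin k := fun x j => ξ (f^[j] x) with hit
  have hitm : Measurable it := measurable_pi_lambda _ fun j => hξ.comp (hf.iterate j)
  set q : (Fin n → Fin k) → ℝ := fun w => (∑ b ∈ S, emit S Q n b w) / S.card with hq
  have hq0 : ∀ w, 0 ≤ q w := fun w =>
    div_nonneg (Finset.sum_nonneg fun b _ => emit_nonneg S Q hQ _ _ _) hSc.le
  have hq1 : ∑ w, q w ≤ 1 := by
    simp only [hq]
    rw [← Finset.sum_div, div_le_one hSc, Finset.sum_comm]
    calc ∑ b ∈ S, ∑ w, emit S Q n b w ≤ ∑ b ∈ S, (1 : ℝ) :=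
          Finset.sum_le_sum fun b _ => emit_sum S Q hQ hQ1 n b
      _ = S.card := by simp
  have hlow : ∀ᵐ x ∂ν, Real.exp (-∑ j ∈ Finset.range n, u j x) / S.card ≤ q (it x) := by
    filter_upwards [hall] with x hx
    refine div_le_div_of_nonneg_right ?_ hSc.le
    exact (emit_ge S Q hQ n (fun j => ξ (f^[j] x)) (fun j => η j x) (fun j => u j x) hx).trans
      (Finset.single_le_sum
        (f := fun b => emit S Q n b (it x)) (fun b _ => emit_nonneg S Q hQ _ _ _) (hx 0).1)
  have hset : ∀ w : Fin n → Fin k, {x | ∀ j : Fin n, ξ (f^[j] x) = w j} = it ⁻¹' {w} := by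
    intro w
    ext x
    simp [hit, funext_iff]
  have hp1 : ∑ w : Fin n → Fin k, ν.real (it ⁻¹' {w}) = 1 := by
    rw [sum_measureReal_preimage_singleton Finset.univ fun w _ => hitm (measurableSet_singleton w)]
    simp
  have hpq : ∀ w, 0 < ν.real (it ⁻¹' {w}) → 0 < q w := by
    intro w hw
    by_contra h
    have h0 : ν (it ⁻¹' {w}) = 0 := by
      refine measure_mono_null ?_ (ae_iff.1 hlow)
      intro x hx h2
      have h1 : it x = w := hx
      rw [h1] at h2
      exact h (lt_of_lt_of_le (by positivity) h2)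
    simp [Measure.real, h0] at hw
  have hg := gibbs (fun w => ν.real (it ⁻¹' {w})) q (fun w => measureReal_nonneg) hq0 hpq hp1 hq1
  have hint : ∑ w, ν.real (it ⁻¹' {w}) * (-Real.log (q w)) = ∫ x, -Real.log (q (it x)) ∂ν := by
    rw [← integral_map (f := fun w => -Real.log (q w)) hitm.aemeasurable
      (measurable_of_finite _).aestronglyMeasurable, integral_fintype Integrable.of_finite]
    refine Finset.sum_congr rfl fun w _ => ?_
    rw [map_measureReal_apply hitm (measurableSet_singleton w), smul_eq_mul]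
  have hint2 : ∫ x, -Real.log (q (it x)) ∂ν ≤
      ∫ x, (Real.log S.card + ∑ j ∈ Finset.range n, u j x) ∂ν := by
    refine integral_mono_ae ?_ ((integrable_const _).add (integrable_finsetSum _ fun j _ => huj j)) ?_
    · exact (integrable_map_measure (g := fun w => -Real.log (q w))
        (measurable_of_finite _).aestronglyMeasurable hitm.aemeasurable).1 Integrable.of_finite
    · filter_upwards [hlow] with x hx
      have := Real.log_le_log (by positivity) hx
      rw [Real.log_div (by positivity) hSc.ne', Real.log_exp] at this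
      linarith only [this]
  rw [integral_add (integrable_const _) (integrable_finsetSum _ fun j _ => huj j),
    integral_finsetSum _ fun j _ => huj j] at hint2
  simp only [integral_const, probReal_univ, one_smul] at hint2
  unfold blockEntropy
  simp only [hset]
  linarith

theorem integral_iterate {X : Type} [MeasurableSpace X] {f : X → X} {ν : Measure X}
    (hf : MeasurePreserving f ν ν) {u : X → ℝ} (hu : Integrable u ν) (j : ℕ) :
    Integrable (fun x => u (f^[j] x)) ν ∧ ∫ x, u (f^[j] x) ∂ν = ∫ x, u x ∂ν := by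
  refine ⟨((hf.iterate j).integrable_comp hu.aestronglyMeasurable).2 hu, ?_⟩
  rw [← integral_map (hf.iterate j).measurable.aemeasurable, (hf.iterate j).map_eq]
  rw [(hf.iterate j).map_eq]
  exact hu.aestronglyMeasurable

theorem limsup_le_of_le {a : ℕ → ℝ} {c d : ℝ} (h : ∀ n, a n ≤ c + n * d) :
    limsup (fun n : ℕ => ((a n / n : ℝ) : EReal)) atTop ≤ (d : EReal) := by
  have h1 : Tendsto (fun n : ℕ => c / n + d) atTop (nhds d) := by
    simpa using (tendsto_const_div_atTop_nhds_zero_nat c).add_const d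
  have h2 : Tendsto (fun n : ℕ => ((c / n + d : ℝ) : EReal)) atTop (nhds (d : EReal)) :=
    (continuous_coe_real_ereal.tendsto d).comp h1
  rw [← h2.limsup_eq]
  refine limsup_le_limsup ?_
  filter_upwards [eventually_gt_atTop 0] with n hn
  have hn' : (0 : ℝ) < n := by exact_mod_cast hn
  rw [EReal.coe_le_coe_iff, div_le_iff₀ hn', add_mul, div_mul_cancel₀ _ hn'.ne', mul_comm]
  exact h n

theorem ksEntropy_nonneg {X : Type} [MeasurableSpace X] (f : X → X) (ν : Measure X)
    [IsProbabilityMeasure ν] : 0 ≤ ksEntropy f ν := by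
  refine le_iSup₂_of_le 1 (fun _ => 0) (le_iSup_of_le measurable_const ?_)
  refine le_limsup_of_frequently_le (Frequently.of_forall fun n => ?_)
  refine EReal.coe_nonneg.2 (div_nonneg (Finset.sum_nonneg fun w _ => ?_) (Nat.cast_nonneg n))
  exact Real.negMulLog_nonneg measureReal_nonneg measureReal_le_one

/-- A bounded Lyapunov function is almost everywhere invariant. -/
theorem lyapunov {X : Type} [MeasurableSpace X] {f : X → X} {ν : Measure X}
    (hf : MeasurePreserving f ν ν) {L : X → ℝ} (hL : Integrable L ν) (hle : ∀ x, L (f x) ≤ L x) :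
    ∀ᵐ x ∂ν, L (f x) = L x := by
  have h1 : Integrable (fun x => L (f x)) ν := (hf.integrable_comp hL.aestronglyMeasurable).2 hL
  have h2 : ∫ x, L (f x) ∂ν = ∫ x, L x ∂ν := by
    rw [← integral_map hf.measurable.aemeasurable, hf.map_eq]
    rw [hf.map_eq]
    exact hL.aestronglyMeasurable
  exact (integral_eq_iff_of_ae_le h1 hL (Eventually.of_forall hle)).1 h2

end Pool.Agent.Work.MP_636246_an
end

-- merged part: Pool.Agent.Work.MP_636246_an.Dyn
section
/-!
Dynamics of the Henon map `(x, y) ↦ (y, y² + 9y/8 - x/8)`, which has a semi-parabolic fixed point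
at the origin: invariant measures and saddles.
-/

open MeasureTheory Filter Topology

namespace Pool.Agent.Work.MP_636246_an

/-- An adapted norm. -/
noncomputable def nrm (z : ℂ × ℂ) : ℝ := max ‖z.2 - (1 / 8) * z.1‖ ‖z.2 - z.1‖

/-- The truncated modulus of the second coordinate. -/
noncomputable def wt (z : ℂ × ℂ) : ℝ := min ‖z.2‖ 3

theorem henon_continuous : Continuous henon := by
  unfold henon
  fun_prop

theorem wt_continuous : Continuous wt := continuous_snd.norm.min continuous_const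

theorem nrm_nonneg (z : ℂ × ℂ) : 0 ≤ nrm z := le_max_of_le_right (norm_nonneg _)

theorem wt_nonneg (z : ℂ × ℂ) : 0 ≤ wt z := le_min (norm_nonneg _) (by norm_num)

theorem wt_le (z : ℂ × ℂ) : wt z ≤ 3 := min_le_right _ _

theorem n18 : ‖(1 / 8 : ℂ)‖ = 1 / 8 := by simp

theorem n98 : ‖(9 / 8 : ℂ)‖ = 9 / 8 := by simp

theorem fst_le_nrm (z : ℂ × ℂ) : ‖z.1‖ ≤ (16 / 7) * nrm z := by
  have h1 : ‖z.2 - (1 / 8) * z.1‖ ≤ nrm z := le_max_left _ _
  have h2 : ‖z.2 - z.1‖ ≤ nrm z := le_max_right _ _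
  have e : z.1 = (8 / 7) * ((z.2 - (1 / 8) * z.1) - (z.2 - z.1)) := by ring
  have h3 := norm_sub_le (z.2 - (1 / 8) * z.1) (z.2 - z.1)
  have e2 : ‖(8 / 7 : ℂ)‖ = 8 / 7 := by simp
  calc ‖z.1‖ = (8 / 7) * ‖(z.2 - (1 / 8) * z.1) - (z.2 - z.1)‖ := by
        conv_lhs => rw [e]
        rw [norm_mul, e2]
    _ ≤ _ := by linarith only [h1, h2, h3]

theorem snd_le_nrm (z : ℂ × ℂ) : ‖z.2‖ ≤ (9 / 7) * nrm z := by
  have h1 : ‖z.2 - (1 / 8) * z.1‖ ≤ nrm z := le_max_left _ _
  have h2 : ‖z.2 - z.1‖ ≤ nrm z := le_max_right _ _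
  have e : z.2 = (8 / 7) * ((z.2 - (1 / 8) * z.1) - (1 / 8) * (z.2 - z.1)) := by ring
  have h3 := norm_sub_le (z.2 - (1 / 8) * z.1) ((1 / 8) * (z.2 - z.1))
  rw [norm_mul, n18] at h3
  have e2 : ‖(8 / 7 : ℂ)‖ = 8 / 7 := by simp
  calc ‖z.2‖ = (8 / 7) * ‖(z.2 - (1 / 8) * z.1) - (1 / 8) * (z.2 - z.1)‖ := by
        conv_lhs => rw [e]
        rw [norm_mul, e2]
    _ ≤ _ := by linarith only [h1, h2, h3]

theorem nrm_le (z : ℂ × ℂ) : nrm z ≤ ‖z.1‖ + ‖z.2‖ := by
  refine max_le ?_ ?_
  · have := norm_sub_le z.2 ((1 / 8) * z.1)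
    rw [norm_mul, n18] at this
    linarith only [this, norm_nonneg z.1]
  · linarith [norm_sub_le z.2 z.1]

theorem nrm_eq_zero {z : ℂ × ℂ} (h : nrm z ≤ 0) : z = 0 := by
  have h1 := fst_le_nrm z
  have h2 := snd_le_nrm z
  ext
  · exact norm_le_zero_iff.1 (by linarith only [h, h1])
  · exact norm_le_zero_iff.1 (by linarith only [h, h2])

theorem henon_zero : henon 0 = 0 := by simp [henon]

theorem norm_snd_ge (z : ℂ × ℂ) : ‖z.2‖ ^ 2 - 9 / 8 * ‖z.2‖ - ‖z.1‖ / 8 ≤ ‖(henon z).2‖ := by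
  have h1 := norm_sub_norm_le (z.2 ^ 2 + (9 / 8) * z.2) ((1 / 8) * z.1)
  have h2 := norm_sub_norm_le (z.2 ^ 2) (-((9 / 8) * z.2))
  rw [sub_neg_eq_add, norm_neg, norm_pow, norm_mul, n98] at h2
  rw [norm_mul, n18] at h1
  simp only [henon]
  linarith only [h1, h2]

theorem nrm_henon_sub (z w : ℂ × ℂ) :
    nrm (henon z - henon w) ≤ (1 + 2 * ‖z.2 + w.2‖) * nrm (z - w) := by
  have h1 : ‖(z - w).2 - (1 / 8) * (z - w).1‖ ≤ nrm (z - w) := le_max_left _ _
  have h2 : ‖(z - w).2 - (z - w).1‖ ≤ nrm (z - w) := le_max_right _ _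
  have h3 := snd_le_nrm (z - w)
  have h4 := nrm_nonneg (z - w)
  have h5 : ‖(z.2 + w.2) * (z - w).2‖ ≤ 2 * ‖z.2 + w.2‖ * nrm (z - w) := by
    rw [norm_mul]
    linarith only [h3, h4, norm_nonneg (z.2 + w.2), mul_nonneg_of_nonpos_of_nonpos (Mathlib.Tactic.Linarith.sub_nonpos_of_le h3) (Mathlib.Tactic.Linarith.sub_nonpos_of_le (norm_nonneg (z.2 + w.2))), mul_nonneg_of_nonpos_of_nonpos (Mathlib.Tactic.Linarith.sub_nonpos_of_le h4) (Mathlib.Tactic.Linarith.sub_nonpos_of_le (norm_nonneg (z.2 + w.2)))]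
  refine max_le ?_ ?_
  · have e : (henon z - henon w).2 - (1 / 8) * (henon z - henon w).1 =
        ((z - w).2 - (1 / 8) * (z - w).1) + (z.2 + w.2) * (z - w).2 := by
      simp only [henon, Prod.fst_sub, Prod.snd_sub]
      ring
    rw [e]
    refine (norm_add_le _ _).trans ?_
    linarith only [h1, h5]
  · have e : (henon z - henon w).2 - (henon z - henon w).1 =
        (1 / 8) * ((z - w).2 - (z - w).1) + (z.2 + w.2) * (z - w).2 := by
      simp only [henon, Prod.fst_sub, Prod.snd_sub]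
      ring
    rw [e]
    refine (norm_add_le _ _).trans ?_
    rw [norm_mul (1 / 8 : ℂ), n18]
    linarith only [h2, h4, h5]

theorem wt_integrable (ν : Measure (ℂ × ℂ)) [IsFiniteMeasure ν] : Integrable wt ν :=
  Integrable.of_bound wt_continuous.aestronglyMeasurable 3 (Eventually.of_forall fun z => by
    rw [Real.norm_of_nonneg (wt_nonneg z)]
    exact wt_le z)

section Invariant

variable {ν : Measure (ℂ × ℂ)} [IsProbabilityMeasure ν] (hf : MeasurePreserving henon ν ν)
include hf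

theorem ae_plus : ∀ᵐ z ∂ν, ¬ (3 < ‖z.2‖ ∧ ‖z.1‖ ≤ ‖z.2‖) := by
  classical
  let L : ℂ × ℂ → ℝ := fun z => if 3 < ‖z.2‖ ∧ ‖z.1‖ ≤ ‖z.2‖ then ‖z.2‖⁻¹ else 1
  have hm : Measurable L := by
    refine Measurable.ite ?_ (by fun_prop) measurable_const
    exact (measurableSet_lt measurable_const measurable_snd.norm).inter
      (measurableSet_le measurable_fst.norm measurable_snd.norm)
  have hb : ∀ z, 0 ≤ L z ∧ L z ≤ 1 := by
    intro z
    simp only [L]
    split_ifs with h
    · exact ⟨by positivity, inv_le_one_of_one_le₀ (by linarith only [h, h.1])⟩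
    · exact ⟨zero_le_one, le_rfl⟩
  have hint : Integrable L ν := Integrable.of_bound hm.aestronglyMeasurable 1
    (Eventually.of_forall fun z => by rw [Real.norm_of_nonneg (hb z).1]; exact (hb z).2)
  have hlt : ∀ z : ℂ × ℂ, 3 < ‖z.2‖ ∧ ‖z.1‖ ≤ ‖z.2‖ → L (henon z) < L z := by
    intro z h
    have h1 := norm_snd_ge z
    have h2 : ‖z.2‖ < ‖(henon z).2‖ := by linarith only [h, h1, h.1, h.2, mul_pos_of_neg_of_neg (Mathlib.Tactic.Linarith.sub_neg_of_lt h.left) (Mathlib.Tactic.Linarith.sub_neg_of_lt h.left)]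
    have h3 : 3 < ‖(henon z).2‖ ∧ ‖(henon z).1‖ ≤ ‖(henon z).2‖ := ⟨h.1.trans h2, h2.le⟩
    simp only [L]
    rw [if_pos h, if_pos h3]
    exact inv_strictAnti₀ (by linarith only [h, h.1]) h2
  have hle : ∀ z, L (henon z) ≤ L z := by
    intro z
    by_cases h : 3 < ‖z.2‖ ∧ ‖z.1‖ ≤ ‖z.2‖
    · exact (hlt z h).le
    · have : L z = 1 := if_neg h
      rw [this]
      exact (hb _).2
  filter_upwards [lyapunov hf hint hle] with z hz h
  exact (hlt z h).ne hz

theorem ae_minus : ∀ᵐ z ∂ν, ¬ (3 < ‖z.1‖ ∧ ‖z.2‖ < ‖z.1‖) := by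
  classical
  let L : ℂ × ℂ → ℝ := fun z => if 3 < ‖z.1‖ ∧ ‖z.2‖ < ‖z.1‖ then 1 - ‖z.1‖⁻¹ else 0
  have hm : Measurable L := by
    refine Measurable.ite ?_ (by fun_prop) measurable_const
    exact (measurableSet_lt measurable_const measurable_fst.norm).inter
      (measurableSet_lt measurable_snd.norm measurable_fst.norm)
  have hpos : ∀ z : ℂ × ℂ, 3 < ‖z.1‖ ∧ ‖z.2‖ < ‖z.1‖ → 0 < L z := by
    intro z h
    simp only [L]
    rw [if_pos h]
    have := inv_lt_one_of_one_lt₀ (show 1 < ‖z.1‖ by linarith [h.1])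
    linarith
  have hb : ∀ z, 0 ≤ L z ∧ L z ≤ 1 := by
    intro z
    by_cases h : 3 < ‖z.1‖ ∧ ‖z.2‖ < ‖z.1‖
    · refine ⟨(hpos z h).le, ?_⟩
      simp only [L]
      rw [if_pos h]
      have : 0 ≤ ‖z.1‖⁻¹ := by positivity
      linarith only [this]
    · have : L z = 0 := if_neg h
      rw [this]
      exact ⟨le_rfl, zero_le_one⟩
  have hint : Integrable L ν := Integrable.of_bound hm.aestronglyMeasurable 1
    (Eventually.of_forall fun z => by rw [Real.norm_of_nonneg (hb z).1]; exact (hb z).2)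
  have hstep : ∀ z : ℂ × ℂ, 3 < ‖(henon z).1‖ ∧ ‖(henon z).2‖ < ‖(henon z).1‖ →
      L (henon z) < L z := by
    intro z h
    have h1 := norm_snd_ge z
    have e : (henon z).1 = z.2 := rfl
    have h' := h
    rw [e] at h'
    have h2 : ‖z.2‖ < ‖z.1‖ := by linarith only [h1, h', h'.1, h'.2, mul_pos_of_neg_of_neg (Mathlib.Tactic.Linarith.sub_neg_of_lt h'.left) (Mathlib.Tactic.Linarith.sub_neg_of_lt h'.left)]
    have h3 : 3 < ‖z.1‖ ∧ ‖z.2‖ < ‖z.1‖ := ⟨h'.1.trans h2, h2⟩
    simp only [L]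
    rw [if_pos h, if_pos h3, e]
    have := inv_strictAnti₀ (show 0 < ‖z.2‖ by linarith only [h', h'.1]) h2
    linarith only [this]
  have hle : ∀ z, L (henon z) ≤ L z := by
    intro z
    by_cases h : 3 < ‖(henon z).1‖ ∧ ‖(henon z).2‖ < ‖(henon z).1‖
    · exact (hstep z h).le
    · have : L (henon z) = 0 := if_neg h
      rw [this]
      exact (hb _).1
  filter_upwards [lyapunov hf hint hle] with z hz h
  by_cases h' : 3 < ‖(henon z).1‖ ∧ ‖(henon z).2‖ < ‖(henon z).1‖
  · exact (hstep z h').ne hz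
  · have : L (henon z) = 0 := if_neg h'
    rw [this] at hz
    exact (hpos z h).ne hz

theorem ae_bounded : ∀ᵐ z ∂ν, ‖z.1‖ ≤ 3 ∧ ‖z.2‖ ≤ 3 := by
  filter_upwards [ae_plus hf, ae_minus hf] with z h1 h2
  push Not at h1 h2
  constructor
  · by_contra h
    have h3 := h2 (not_le.1 h)
    have := h1 (by linarith [not_le.1 h])
    linarith
  · by_contra h
    have h3 := h1 (not_le.1 h)
    have := h2 (by linarith [not_le.1 h])
    linarith

end Invariant

/-- The derivative at the origin. -/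
noncomputable def dz : ℂ × ℂ →L[ℂ] ℂ × ℂ :=
  (ContinuousLinearMap.snd ℂ ℂ ℂ).prod
    ((9 / 8 : ℂ) • ContinuousLinearMap.snd ℂ ℂ ℂ - (1 / 8 : ℂ) • ContinuousLinearMap.fst ℂ ℂ ℂ)

theorem dz_apply (v : ℂ × ℂ) : dz v = (v.2, (9 / 8 : ℂ) * v.2 - (1 / 8 : ℂ) * v.1) := rfl

theorem hasFDerivAt_henon : HasFDerivAt henon dz 0 := by
  have h1 : HasFDerivAt (fun z : ℂ × ℂ => z.2) (ContinuousLinearMap.snd ℂ ℂ ℂ) 0 := hasFDerivAt_snd
  have h2 : HasFDerivAt (fun z : ℂ × ℂ => z.1) (ContinuousLinearMap.fst ℂ ℂ ℂ) 0 := hasFDerivAt_fst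
  have h3 := h1.prodMk (((h1.pow 2).add (h1.const_mul (9 / 8 : ℂ))).sub (h2.const_mul (1 / 8 : ℂ)))
  refine HasFDerivAt.congr_fderiv h3 ?_
  ext <;> simp [dz]

theorem nrm_dz (v : ℂ × ℂ) : nrm (dz v) ≤ nrm v := by
  have h1 : ‖v.2 - (1 / 8) * v.1‖ ≤ nrm v := le_max_left _ _
  have h2 : ‖v.2 - v.1‖ ≤ nrm v := le_max_right _ _
  rw [dz_apply]
  refine max_le ?_ ?_
  · have e : (9 / 8 : ℂ) * v.2 - (1 / 8 : ℂ) * v.1 - (1 / 8) * v.2 = v.2 - (1 / 8) * v.1 := by ring
    simp only [e]
    exact h1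
  · have e : (9 / 8 : ℂ) * v.2 - (1 / 8 : ℂ) * v.1 - v.2 = (1 / 8) * (v.2 - v.1) := by ring
    simp only [e, norm_mul, n18]
    linarith only [h2, norm_nonneg (v.2 - v.1)]

theorem nrm_dz_pow (n : ℕ) (v : ℂ × ℂ) : nrm ((dz ^ n) v) ≤ nrm v := by
  induction n with
  | zero => exact le_rfl
  | succ n ih =>
    rw [pow_succ']
    exact (nrm_dz _).trans ih

theorem nrm_smul (l : ℂ) (v : ℂ × ℂ) : nrm (l • v) = ‖l‖ * nrm v := by
  simp only [nrm, Prod.smul_fst, Prod.smul_snd, smul_eq_mul]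
  rw [mul_max_of_nonneg _ _ (norm_nonneg l), ← norm_mul, ← norm_mul]
  congr 2 <;> ring

theorem zero_not_saddle (n : ℕ) : (0 : ℂ × ℂ) ∉ saddles henon n := by
  rintro ⟨-, l, m, hl, -, hev, -⟩
  rw [(hasFDerivAt_henon.iterate henon_zero n).fderiv] at hev
  obtain ⟨v, hv⟩ := hev.exists_hasEigenvector
  have h1 : (dz ^ n) v = l • v := hv.apply_eq_smul
  have h2 := nrm_dz_pow n v
  rw [h1, nrm_smul] at h2
  have h3 : 0 < nrm v := lt_of_not_ge fun h => hv.2 (nrm_eq_zero h)
  linarith only [h2, hl, h3, mul_pos_of_neg_of_neg (Mathlib.Tactic.Linarith.sub_neg_of_lt hl) (Mathlib.Tactic.Linarith.sub_neg_of_lt h3)]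

/-- There is no small non-zero periodic solution of the recurrence. -/
theorem no_small_cycle (y : ℕ → ℂ) {n : ℕ} (hn : 0 < n) (hper : ∀ j, y (j + n) = y j)
    (hrec : ∀ j, y (j + 2) = y (j + 1) ^ 2 + (9 / 8) * y (j + 1) - (1 / 8) * y j)
    (hsm : ∀ j, ‖y j‖ ≤ 1 / 8) (j : ℕ) : y j = 0 := by
  have hmod : ∀ j, y (j % n) = y j := by
    intro j
    have : ∀ q r, y (r + q * n) = y r := by
      intro q r
      induction q with
      | zero => simp
      | succ q ih => rw [Nat.succ_mul, ← add_assoc, hper, ih]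
    conv_rhs => rw [← Nat.mod_add_div' j n]
    exact (this _ _).symm
  obtain ⟨i, -, hi⟩ := Finset.exists_max_image (Finset.range n) (fun j => ‖y j‖) ⟨0, by simpa⟩
  have hmax : ∀ j, ‖y j‖ ≤ ‖y i‖ := fun j => by
    rw [← hmod j]
    exact hi _ (Finset.mem_range.2 (Nat.mod_lt j hn))
  by_contra hj
  have hi0 : y i ≠ 0 := fun h => hj (norm_le_zero_iff.1 (by simpa [h] using hmax j))
  obtain ⟨i₀, hi₀⟩ : ∃ i₀, i + n = i₀ + 1 := ⟨i + n - 1, by omega⟩
  have hyi : y (i₀ + 1) = y i := by rw [← hi₀, hper]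
  have hdiff : ∀ j, ‖y (j + 2) - y (j + 1)‖ ≤ ‖y (j + 1)‖ / 8 + ‖y (j + 1) - y j‖ / 8 := by
    intro j
    have e : y (j + 2) - y (j + 1) = y (j + 1) * y (j + 1) + (1 / 8) * (y (j + 1) - y j) := by
      rw [hrec]
      ring
    rw [e]
    refine (norm_add_le _ _).trans ?_
    rw [norm_mul, norm_mul, n18]
    linarith only [hsm, hsm (j + 1), norm_nonneg (y (j + 1)), mul_nonneg_of_nonpos_of_nonpos (Mathlib.Tactic.Linarith.sub_nonpos_of_le (hsm (j + (1 : ℕ)))) (Mathlib.Tactic.Linarith.sub_nonpos_of_le (norm_nonneg (y (j + (1 : ℕ)))))]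
  have hinv : ∀ t, y (i₀ + 1 + t) ≠ 0 ∧
      ‖y (i₀ + 1 + t + 1) - y (i₀ + 1 + t)‖ ≤ 3 / 8 * ‖y (i₀ + 1 + t)‖ := by
    intro t
    induction t with
    | zero =>
      refine ⟨by rwa [add_zero, hyi], ?_⟩
      have h1 := hdiff i₀
      have h2 := norm_sub_le (y (i₀ + 1)) (y i₀)
      have h3 := hmax i₀
      rw [← hyi] at h3
      simp only [add_zero]
      linarith only [h1, h2, h3]
    | succ t ih =>
      have h1 := hdiff (i₀ + 1 + t)
      have h2 := norm_sub_norm_le (y (i₀ + 1 + t)) (y (i₀ + 1 + t + 1))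
      rw [norm_sub_rev] at h2
      have h3 := norm_pos_iff.2 ih.1
      rw [← add_assoc]
      exact ⟨norm_pos_iff.1 (by linarith only [ih, h2, h3, ih.2]), by linarith only [ih, h1, h2, h3, ih.2]⟩
  let a : ℕ → ℝ := fun t => (-(y (i₀ + 1 + t + 1) - (1 / 8) * y (i₀ + 1 + t))⁻¹).re
  have hmono : StrictMono a := by
    refine strictMono_nat_of_lt_succ fun t => ?_
    obtain ⟨h1, h2⟩ := hinv t
    obtain ⟨h3, h4⟩ := hinv (t + 1)
    rw [← add_assoc] at h3 h4
    have hr := hrec (i₀ + 1 + t)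
    simp only [a]
    rw [← add_assoc]
    set y0 := y (i₀ + 1 + t)
    set y1 := y (i₀ + 1 + t + 1)
    set y2 := y (i₀ + 1 + t + 1 + 1)
    have hy1 : 0 < ‖y1‖ := norm_pos_iff.2 h3
    have h5 : ‖y0‖ ≤ 8 / 5 * ‖y1‖ := by
      have := norm_sub_norm_le y0 y1
      rw [norm_sub_rev] at this
      linarith only [h2, this]
    set e1 := (y2 - y1) / y1 with he1
    set e2 := -(1 / 8) * y0 / y1 with he2
    have hn1 : ‖e1‖ ≤ 3 / 8 := by
      rw [he1, norm_div, div_le_iff₀ hy1]
      exact h4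
    have hn2 : ‖e2‖ ≤ 1 / 5 := by
      rw [he2, norm_div, div_le_iff₀ hy1, norm_mul, norm_neg, n18]
      linarith only [h5]
    have hv1 : y2 - (1 / 8) * y1 = y1 * (7 / 8 + e1) := by
      rw [he1]
      field_simp
      ring
    have hv0 : y1 - (1 / 8) * y0 = y1 * (1 + e2) := by
      rw [he2]
      field_simp
      ring
    have hre : 0 < ((7 / 8 + e1) * (1 + e2)).re := by
      have e : (7 / 8 + e1) * (1 + e2) = 7 / 8 + (e1 + (7 / 8) * e2 + e1 * e2) := by ring
      have hb : ‖e1 + (7 / 8) * e2 + e1 * e2‖ ≤ 5 / 8 := by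
        refine (norm_add₃_le).trans ?_
        have e78 : ‖(7 / 8 : ℂ)‖ = 7 / 8 := by simp
        rw [norm_mul, norm_mul, e78]
        linarith only [hn1, hn2, norm_nonneg e1, norm_nonneg e2, mul_nonneg_of_nonpos_of_nonpos (Mathlib.Tactic.Linarith.sub_nonpos_of_le hn1) (Mathlib.Tactic.Linarith.sub_nonpos_of_le (norm_nonneg e2))]
      have := (abs_le.1 ((Complex.abs_re_le_norm _).trans hb)).1
      rw [e, Complex.add_re]
      have e78 : ((7 / 8 : ℂ)).re = 7 / 8 := by norm_num
      rw [e78]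
      linarith only [this]
    have hne : (7 / 8 + e1) * (1 + e2) ≠ 0 := fun h => by simp [h] at hre
    have hA : (7 / 8 + e1) ≠ 0 := left_ne_zero_of_mul hne
    have hB : (1 + e2) ≠ 0 := right_ne_zero_of_mul hne
    have hsq : y1 * (7 / 8 + e1) - y1 * (1 + e2) = y1 ^ 2 := by
      rw [← hv1, ← hv0, hr]
      ring
    have hid : -(y2 - (1 / 8) * y1)⁻¹ = -(y1 - (1 / 8) * y0)⁻¹ + ((7 / 8 + e1) * (1 + e2))⁻¹ := by
      rw [hv1, hv0]
      set A := 7 / 8 + e1
      set B := 1 + e2
      have : A - B = y1 := by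
        have h := hsq
        rw [← mul_sub, sq] at h
        exact mul_left_cancel₀ h3 h
      field_simp
      rw [← this]
      ring
    rw [hid, Complex.add_re, Complex.inv_re]
    have := div_pos hre (Complex.normSq_pos.2 hne)
    linarith only [this]
  have h1 : a 0 < a n := hmono hn
  have h2 : a n = a 0 := by
    simp only [a, add_zero]
    rw [show i₀ + 1 + n + 1 = (i₀ + 1 + 1) + n by ring, hper, hper]
  exact h1.ne' h2

theorem saddle_far {n : ℕ} (hn : 0 < n) {z : ℂ × ℂ} (hz : z ∈ saddles henon n) :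
    1 / 8 ≤ ∑ j ∈ Finset.range n, wt (henon^[j] z) := by
  by_contra h
  have h := not_le.1 h
  have hper : ∀ j, henon^[j + n] z = henon^[j] z := fun j => by
    rw [Function.iterate_add_apply, hz.1]
  have h1 : ∀ j < n, ‖(henon^[j] z).2‖ ≤ 1 / 8 := by
    intro j hj
    have h2 := (Finset.single_le_sum (f := fun j => wt (henon^[j] z))
      (fun j _ => wt_nonneg _) (Finset.mem_range.2 hj)).trans_lt h
    rcases min_lt_iff.1 h2 with h3 | h3
    · exact h3.le
    · norm_num at h3
  have h2 : ∀ j, ‖(henon^[j] z).2‖ ≤ 1 / 8 := by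
    intro j
    induction j using Nat.strong_induction_on with
    | _ j ih =>
      by_cases hj : j < n
      · exact h1 j hj
      · have := ih (j - n) (by omega)
        rwa [← hper, show j - n + n = j by omega] at this
  have h3 := no_small_cycle (fun j => (henon^[j] z).2) hn (fun j => by simp only [hper])
    (fun j => by
      simp only [show j + 2 = (j + 1) + 1 from rfl, Function.iterate_succ_apply', henon]) h2
  have h4 : z = 0 := by
    obtain ⟨m, rfl⟩ := Nat.exists_eq_succ_of_ne_zero hn.ne'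
    ext
    · have h5 := hz.1
      rw [Function.iterate_succ_apply'] at h5
      rw [← h5]
      exact h3 m
    · exact h3 0
  exact zero_not_saddle _ (h4 ▸ hz)

theorem zero_mem_frontier {K : Set (ℂ × ℂ)} (h0 : 0 ∈ K) (v : ℂ × ℂ)
    (h : ∀ s : ℝ, 0 < s → (s : ℂ) • v ∉ K) : (0 : ℂ × ℂ) ∈ frontier K := by
  refine ⟨subset_closure h0, fun hi => ?_⟩
  have h1 : Tendsto (fun s : ℝ => (s : ℂ) • v) (𝓝 0) (𝓝 0) := by
    have : Continuous fun s : ℝ => (s : ℂ) • v := by fun_prop
    simpa using this.tendsto 0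
  have h2 := (h1.mono_left (nhdsWithin_le_nhds (s := Set.Ioi 0))).eventually
    (mem_interior_iff_mem_nhds.1 hi)
  obtain ⟨s, hs1, hs2⟩ := (h2.and self_mem_nhdsWithin).exists
  exact h s hs2 hs1

theorem zero_mem_julia : (0 : ℂ × ℂ) ∈ julia henon := by
  constructor
  · refine zero_mem_frontier ⟨0, fun n => by simp [Function.iterate_fixed henon_zero]⟩ (1, 1) ?_
    rintro s hs ⟨R, hR⟩
    have key : ∀ n : ℕ, ∃ a b : ℝ, henon^[n] ((s : ℂ) • ((1, 1) : ℂ × ℂ)) = ((a : ℂ), (b : ℂ)) ∧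
        a ≤ b ∧ s + n * s ^ 2 ≤ b := by
      intro n
      induction n with
      | zero => exact ⟨s, s, by simp, le_rfl, by simp⟩
      | succ n ih =>
        obtain ⟨a, b, h1, h2, h3⟩ := ih
        have h4 : 0 ≤ n * s ^ 2 := by positivity
        have h5 : s ^ 2 ≤ b ^ 2 := by linarith only [hs, h3, h4, mul_nonneg_of_nonpos_of_nonpos (le_of_lt (Mathlib.Tactic.Linarith.sub_neg_of_lt hs)) (Mathlib.Tactic.Linarith.sub_nonpos_of_le h3), mul_nonneg_of_nonpos_of_nonpos (le_of_lt (Mathlib.Tactic.Linarith.sub_neg_of_lt hs)) (Mathlib.Tactic.Linarith.sub_nonpos_of_le h4), mul_nonneg_of_nonpos_of_nonpos (Mathlib.Tactic.Linarith.sub_nonpos_of_le h3) (Mathlib.Tactic.Linarith.sub_nonpos_of_le h3), mul_nonneg_of_nonpos_of_nonpos (Mathlib.Tactic.Linarith.sub_nonpos_of_le h3) (Mathlib.Tactic.Linarith.sub_nonpos_of_le h4), mul_nonneg_of_nonpos_of_nonpos (Mathlib.Tactic.Linarith.sub_nonpos_of_le h4) (Mathlib.Tactic.Linarith.sub_nonpos_of_le h4)]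
        refine ⟨b, b ^ 2 + 9 / 8 * b - 1 / 8 * a, ?_, by linarith only [h2, sq_nonneg b], ?_⟩
        · rw [Function.iterate_succ_apply', h1]
          simp [henon]
        · push_cast
          linarith only [h2, h3, h5]
    obtain ⟨n, hn⟩ := exists_nat_gt (R / s ^ 2)
    obtain ⟨a, b, h1, -, h3⟩ := key n
    have h4 := hR n
    rw [h1] at h4
    have h5 : |b| ≤ R := by simpa using (norm_snd_le ((a : ℂ), (b : ℂ))).trans h4
    rw [div_lt_iff₀ (by positivity)] at hn
    linarith [le_abs_self b]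
  · have hinj : ∀ w, henon w = 0 → w = 0 := by
      intro w h
      have h1 : w.2 = 0 := congrArg Prod.fst h
      have h2 : w.2 ^ 2 + (9 / 8) * w.2 - (1 / 8) * w.1 = 0 := congrArg Prod.snd h
      rw [h1] at h2
      ext
      · simpa using h2
      · exact h1
    have hinj' : ∀ n w, henon^[n] w = 0 → w = 0 := by
      intro n
      induction n with
      | zero => exact fun w h => h
      | succ n ih => exact fun w h => hinj w (ih _ h)
    refine zero_mem_frontier ⟨0, fun n w h => by simp [hinj' n w h]⟩ (1, 0) ?_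
    rintro s hs ⟨R, hR⟩
    have key : ∀ n : ℕ, ∃ a b : ℝ, henon^[n] ((a : ℂ), (b : ℂ)) = (s : ℂ) • ((1, 0) : ℂ × ℂ) ∧
        b + s ≤ a ∧ n * s ≤ b := by
      intro n
      induction n with
      | zero => exact ⟨s, 0, by simp, by simp, by simp⟩
      | succ n ih =>
        obtain ⟨a, b, h1, h2, h3⟩ := ih
        refine ⟨8 * (a ^ 2 + 9 / 8 * a - b), a, ?_, by linarith only [hs, h2, sq_nonneg ((1 : ℝ) * a)], ?_⟩
        · rw [Function.iterate_succ_apply, ← h1]
          congr 1
          simp only [henon]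
          push_cast
          congr 1
          ring
        · push_cast
          linarith
    obtain ⟨n, hn⟩ := exists_nat_gt (R / s)
    obtain ⟨a, b, h1, -, h3⟩ := key n
    have h4 := hR n _ h1
    have h5 : |b| ≤ R := by simpa using (norm_snd_le ((a : ℂ), (b : ℂ))).trans h4
    rw [div_lt_iff₀ hs] at hn
    linarith [le_abs_self b]

end Pool.Agent.Work.MP_636246_an
end

-- merged part: Pool.Agent.Work.MP_636246_an.Bound
section
/-!
The entropy bound `h_ν ≤ 16 ∫ wt dν` for every invariant probability measure.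
-/

open MeasureTheory Filter Topology

namespace Pool.Agent.Work.MP_636246_an

/-- Real coordinates. -/
def co (z : ℂ × ℂ) : Fin 4 → ℝ := ![z.1.re, z.1.im, z.2.re, z.2.im]

/-- Grid cell of mesh `δ`. -/
noncomputable def cell (δ : ℝ) (z : ℂ × ℂ) : Fin 4 → ℤ := fun i => ⌊co z i / δ⌋

theorem co_le (z w : ℂ × ℂ) {c : ℝ} (h1 : ‖z.1 - w.1‖ ≤ c) (h2 : ‖z.2 - w.2‖ ≤ c) (i : Fin 4) :
    |co z i - co w i| ≤ c := by
  fin_cases i
  · exact (Complex.abs_re_le_norm (z.1 - w.1)).trans h1
  · exact (Complex.abs_im_le_norm (z.1 - w.1)).trans h1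
  · exact (Complex.abs_re_le_norm (z.2 - w.2)).trans h2
  · exact (Complex.abs_im_le_norm (z.2 - w.2)).trans h2

theorem floor_close {δ a b : ℝ} (hδ : 0 < δ) (h : ⌊a / δ⌋ = ⌊b / δ⌋) : |a - b| ≤ δ := by
  have h1 := Int.abs_sub_lt_one_of_floor_eq_floor h
  rw [← sub_div, abs_div, abs_of_pos hδ, div_lt_one hδ] at h1
  exact h1.le

theorem cell_close {δ : ℝ} (hδ : 0 < δ) {z w : ℂ × ℂ} (h : cell δ z = cell δ w) :
    ‖z.1 - w.1‖ ≤ 2 * δ ∧ ‖z.2 - w.2‖ ≤ 2 * δ := by
  have h0 := floor_close hδ (congrFun h 0)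
  have h1 := floor_close hδ (congrFun h 1)
  have h2 := floor_close hδ (congrFun h 2)
  have h3 := floor_close hδ (congrFun h 3)
  simp only [co, Matrix.cons_val] at h0 h1 h2 h3
  constructor
  · refine (Complex.norm_le_abs_re_add_abs_im _).trans ?_
    simp only [Complex.sub_re, Complex.sub_im]
    linarith
  · refine (Complex.norm_le_abs_re_add_abs_im _).trans ?_
    simp only [Complex.sub_re, Complex.sub_im]
    linarith

/-- The box of integer vectors within `r` of `c`. -/
noncomputable def box (c : Fin 4 → ℤ) (r : ℕ) : Finset (Fin 4 → ℤ) :=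
  Fintype.piFinset fun i => Finset.Icc (c i - r) (c i + r)

theorem card_box (c : Fin 4 → ℤ) (r : ℕ) : (box c r).card = (2 * r + 1) ^ 4 := by
  have : ∀ i, (Finset.Icc (c i - r) (c i + r)).card = 2 * r + 1 := by
    intro i
    rw [Int.card_Icc]
    omega
  simp [box, Fintype.card_piFinset, this]

theorem mem_box {δ : ℝ} (hδ : 0 < δ) {z w : ℂ × ℂ} {r : ℕ} (h1 : ‖z.1 - w.1‖ ≤ r * δ)
    (h2 : ‖z.2 - w.2‖ ≤ r * δ) : cell δ z ∈ box (cell δ w) r := by
  rw [box, Fintype.mem_piFinset]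
  intro i
  have h := abs_le.1 (co_le z w h1 h2 i)
  rw [Finset.mem_Icc]
  constructor
  · simp only [cell]
    rw [← Int.floor_sub_natCast]
    apply Int.floor_mono
    rw [sub_le_iff_le_add, div_le_iff₀ hδ, add_mul, div_mul_cancel₀ _ hδ.ne']
    linarith [h.1]
  · simp only [cell]
    rw [← Int.floor_add_natCast]
    apply Int.floor_mono
    rw [div_le_iff₀ hδ, add_mul, div_mul_cancel₀ _ hδ.ne']
    linarith [h.2]

theorem exists_compact_sep (ν : Measure (ℂ × ℂ)) [IsProbabilityMeasure ν] {k : ℕ}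
    {ξ : ℂ × ℂ → Fin k} (hξ : Measurable ξ) {ε : ℝ} (hε : 0 < ε) :
    ∃ K : Set (ℂ × ℂ), MeasurableSet K ∧ ν.real Kᶜ ≤ ε ∧
      ∃ δ > 0, ∀ z ∈ K, ∀ w ∈ K, dist z w ≤ δ → ξ z = ξ w := by
  have hk : (0 : ℝ) < k := by exact_mod_cast (ξ 0).pos
  have h1 : ∀ i : Fin k, ∃ K, K ⊆ ξ ⁻¹' {i} ∧ IsCompact K ∧
      ν (ξ ⁻¹' {i} \ K) < ENNReal.ofReal (ε / k) := fun i =>
    (hξ (measurableSet_singleton i)).exists_isCompact_sdiff_lt (measure_ne_top _ _)
      (ENNReal.ofReal_pos.2 (by positivity)).ne'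
  choose K hK1 hK2 hK3 using h1
  refine ⟨⋃ i, K i, MeasurableSet.iUnion fun i => (hK2 i).measurableSet, ?_, ?_⟩
  · have hsub : (⋃ i, K i)ᶜ ⊆ ⋃ i, (ξ ⁻¹' {i} \ K i) := by
      intro z hz
      simp only [Set.mem_compl_iff, Set.mem_iUnion, not_exists] at hz
      exact Set.mem_iUnion.2 ⟨ξ z, rfl, hz _⟩
    refine (measureReal_mono hsub).trans ((measureReal_iUnion_fintype_le _).trans ?_)
    calc ∑ i, ν.real (ξ ⁻¹' {i} \ K i) ≤ ∑ _i : Fin k, ε / k :=
          Finset.sum_le_sum fun i _ => ENNReal.toReal_le_of_le_ofReal (by positivity) (hK3 i).le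
      _ = ε := by
          simp only [Finset.sum_const, Finset.card_univ, Fintype.card_fin, nsmul_eq_mul]
          field_simp
  · have h2 : ∀ p : Fin k × Fin k, ∀ᶠ δ in 𝓝[>] (0 : ℝ),
        ∀ z ∈ K p.1, ∀ w ∈ K p.2, dist z w ≤ δ → p.1 = p.2 := by
      intro p
      by_cases hp : p.1 = p.2
      · exact Eventually.of_forall fun _ _ _ _ _ _ => hp
      · have hd : Disjoint (K p.1) (K p.2) := Set.disjoint_left.2 fun z h1 h2 =>
          hp ((hK1 _ h1).symm.trans (hK1 _ h2))
        obtain ⟨r, hr, h⟩ := Metric.exists_pos_forall_lt_edist (hK2 p.1) (hK2 p.2).isClosed hd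
        have hr' : (0 : ℝ) < r := hr
        filter_upwards [nhdsWithin_le_nhds (Iio_mem_nhds hr')] with δ hδ z hz w hw hzw
        have := h z hz w hw
        rw [edist_dist, ← ENNReal.ofReal_coe_nnreal, ENNReal.ofReal_lt_ofReal_iff_of_nonneg hr'.le]
          at this
        exact absurd (hzw.trans_lt hδ) (not_lt.2 this.le)
    obtain ⟨δ, hδ1, hδ2⟩ := ((eventually_all.2 h2).and self_mem_nhdsWithin).exists
    refine ⟨δ, hδ2, fun z hz w hw hzw => ?_⟩
    obtain ⟨i, hi⟩ := Set.mem_iUnion.1 hz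
    obtain ⟨j, hj⟩ := Set.mem_iUnion.1 hw
    have : i = j := hδ1 (i, j) z hi w hj hzw
    exact (hK1 i hi).trans (this ▸ (hK1 j hj).symm)

/-- Points whose whole forward orbit stays in the bidisc of radius 3. -/
def Gd (z : ℂ × ℂ) : Prop := ∀ j, ‖(henon^[j] z).1‖ ≤ 3 ∧ ‖(henon^[j] z).2‖ ≤ 3

theorem Gd.iterate {z : ℂ × ℂ} (h : Gd z) (i : ℕ) : Gd (henon^[i] z) := fun j => by
  rw [← Function.iterate_add_apply]
  exact h _

theorem crude {z w : ℂ × ℂ} (hz : Gd z) (hw : Gd w) (i : ℕ) :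
    nrm (henon^[i] z - henon^[i] w) ≤ 13 ^ i * nrm (z - w) := by
  induction i with
  | zero => simp
  | succ i ih =>
    rw [Function.iterate_succ_apply', Function.iterate_succ_apply']
    refine (nrm_henon_sub _ _).trans ?_
    have h1 := (norm_add_le (henon^[i] z).2 (henon^[i] w).2).trans
      (add_le_add (hz i).2 (hw i).2)
    calc _ ≤ 13 * (13 ^ i * nrm (z - w)) :=
          mul_le_mul (by linarith only [h1]) ih (nrm_nonneg _) (by norm_num)
      _ = _ := by ring

theorem fine {z w : ℂ × ℂ} (hz : Gd z) (hw : Gd w) {m : ℕ} {τ : ℝ}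
    (h : 13 ^ m * nrm (z - w) ≤ τ) (i : ℕ) (hi : i ≤ m) :
    nrm (henon^[i] z - henon^[i] w) ≤
      Real.exp (∑ j ∈ Finset.range i, (4 * wt (henon^[j] z) + 4 * τ)) * nrm (z - w) := by
  induction i with
  | zero => simp
  | succ i ih =>
    have ih := ih (by omega)
    rw [Function.iterate_succ_apply', Function.iterate_succ_apply', Finset.sum_range_succ,
      Real.exp_add]
    refine (nrm_henon_sub _ _).trans ?_
    have h1 : nrm (henon^[i] z - henon^[i] w) ≤ τ := by
      refine (crude hz hw i).trans (le_trans ?_ h)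
      exact mul_le_mul_of_nonneg_right (pow_le_pow_right₀ (by norm_num) (by omega)) (nrm_nonneg _)
    have h2 := snd_le_nrm (henon^[i] z - henon^[i] w)
    have h3 : ‖(henon^[i] z).2 + (henon^[i] w).2‖ ≤
        2 * ‖(henon^[i] z).2‖ + ‖(henon^[i] z - henon^[i] w).2‖ := by
      have e : (henon^[i] z).2 + (henon^[i] w).2 =
          2 * (henon^[i] z).2 - (henon^[i] z - henon^[i] w).2 := by
        simp only [Prod.snd_sub]
        ring
      rw [e]
      refine (norm_sub_le _ _).trans ?_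
      simp
    have h4 : wt (henon^[i] z) = ‖(henon^[i] z).2‖ := min_eq_left (hz i).2
    have h5 := nrm_nonneg (henon^[i] z - henon^[i] w)
    have h6 : 1 + 2 * ‖(henon^[i] z).2 + (henon^[i] w).2‖ ≤
        Real.exp (4 * wt (henon^[i] z) + 4 * τ) := by
      refine le_trans ?_ (Real.add_one_le_exp _)
      linarith only [h1, h2, h3, h4, h5]
    calc _ ≤ Real.exp (4 * wt (henon^[i] z) + 4 * τ) *
          (Real.exp (∑ j ∈ Finset.range i, (4 * wt (henon^[j] z) + 4 * τ)) * nrm (z - w)) :=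
          mul_le_mul h6 ih h5 (Real.exp_pos _).le
      _ = _ := by ring

theorem cell_nrm {δ : ℝ} (hδ : 0 < δ) {z w : ℂ × ℂ} (h : cell δ z = cell δ w) :
    nrm (z - w) ≤ 4 * δ := by
  obtain ⟨h1, h2⟩ := cell_close hδ h
  have := nrm_le (z - w)
  simp only [Prod.fst_sub, Prod.snd_sub] at this
  linarith

theorem card_bound {E : ℝ} (hE : 0 ≤ E) :
    (((2 * ⌈10 * Real.exp E⌉₊ + 1) ^ 4 : ℕ) : ℝ) ≤ Real.exp (88 + 4 * E) := by
  have h1 : 1 ≤ Real.exp E := Real.one_le_exp hE
  have h2 : (⌈10 * Real.exp E⌉₊ : ℝ) ≤ 10 * Real.exp E + 1 := (Nat.ceil_lt_add_one (by positivity)).le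
  have h3 : (23 : ℝ) ≤ Real.exp 22 := by linarith [Real.add_one_le_exp (22 : ℝ)]
  have h4 : 2 * (⌈10 * Real.exp E⌉₊ : ℝ) + 1 ≤ Real.exp (22 + E) := by
    rw [Real.exp_add]
    linarith only [h1, h2, h3, mul_nonneg_of_nonpos_of_nonpos (Mathlib.Tactic.Linarith.sub_nonpos_of_le h1) (Mathlib.Tactic.Linarith.sub_nonpos_of_le h3)]
  push_cast
  calc _ ≤ Real.exp (22 + E) ^ 4 := by gcongr
    _ = _ := by rw [← Real.exp_nat_mul]; congr 1; push_cast; ring

theorem limsup_block_le {ν : Measure (ℂ × ℂ)} [IsProbabilityMeasure ν]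
    (hf : MeasurePreserving henon ν ν) {k : ℕ} {ξ : ℂ × ℂ → Fin k} (hξ : Measurable ξ)
    {τ : ℝ} (hτ : 0 < τ) :
    limsup (fun n : ℕ => ((blockEntropy henon ν ξ n / n : ℝ) : EReal)) atTop ≤
      ((19 * τ + 16 * ∫ z, wt z ∂ν : ℝ) : EReal) := by
  classical
  have hk : (0 : ℝ) < k := by exact_mod_cast (ξ 0).pos
  have hk1 : (1 : ℝ) ≤ k := by exact_mod_cast (ξ 0).pos
  set e : ℝ := Real.exp (-τ) with he
  have he0 : 0 < e := Real.exp_pos _
  have he1 : e < 1 := Real.exp_lt_one_iff.2 (by linarith)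
  set ε : ℝ := (1 - e) / k with hε
  have hε0 : 0 < ε := div_pos (by linarith) hk
  have hε1 : ε ≤ 1 := by
    rw [hε, div_le_one hk]
    linarith
  set Λ : ℝ := -Real.log ε with hΛ
  have hΛ0 : 0 ≤ Λ := neg_nonneg.2 (Real.log_nonpos hε0.le hε1)
  obtain ⟨K, hKm, hKν, δ₀, hδ₀, hsep⟩ := exists_compact_sep ν hξ
    (show 0 < τ / (Λ + 1) by positivity)
  obtain ⟨m, hm⟩ := exists_nat_gt (88 / τ)
  have hm0' : (0 : ℝ) < m := lt_trans (by positivity) hm
  have hm0 : 0 < m := by exact_mod_cast hm0'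
  set δ := min τ (δ₀ / 3) / (4 * 13 ^ m) with hδdef
  have hδ : 0 < δ := by positivity
  have hδ1 : 13 ^ m * (4 * δ) = min τ (δ₀ / 3) := by
    rw [hδdef]
    field_simp
  have hclose : ∀ z w, cell δ z = cell δ w → 13 ^ m * nrm (z - w) ≤ min τ (δ₀ / 3) := by
    intro z w h
    rw [← hδ1]
    exact mul_le_mul_of_nonneg_left (cell_nrm hδ h) (by positivity)
  let R : ℕ := ⌈3 / δ⌉₊
  have hR : 3 ≤ R * δ := by
    have := Nat.le_ceil (3 / δ)
    rwa [div_le_iff₀ hδ] at this
  let S₀ : Finset (Fin 4 → ℤ) := box (cell δ 0) R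
  have hS₀ : ∀ z, Gd z → cell δ z ∈ S₀ := fun z hz =>
    mem_box hδ (by simpa using (hz 0).1.trans hR) (by simpa using (hz 0).2.trans hR)
  let S : Finset ((Fin 4 → ℤ) × ℕ) := S₀ ×ˢ Finset.range m
  let nb₀ : (Fin 4 → ℤ) → Finset (Fin 4 → ℤ) := fun b =>
    S₀.filter fun c => ∃ w, Gd w ∧ cell δ w = b ∧ cell δ (henon^[m] w) = c
  let nb : (Fin 4 → ℤ) × ℕ → Finset ((Fin 4 → ℤ) × ℕ) := fun b =>
    if b.2 + 1 = m then (nb₀ b.1).image (fun c => (c, 0)) else {(b.1, b.2 + 1)}
  let T : (Fin 4 → ℤ) × ℕ → (Fin 4 → ℤ) × ℕ → ℝ := fun b b' =>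
    if b' ∈ nb b then 1 / ((nb b).card : ℝ) else 0
  let g : (Fin 4 → ℤ) × ℕ → Fin k := fun b =>
    if h : ∃ w, Gd w ∧ cell δ w = b.1 ∧ henon^[b.2] w ∈ K then ξ (henon^[b.2] h.choose) else ξ 0
  let κ : (Fin 4 → ℤ) × ℕ → Fin k → ℝ := fun b a => (if a = g b then e else 0) + ε
  have hT0 : ∀ b b', 0 ≤ T b b' := fun b b' => by
    simp only [T]
    split_ifs
    · positivity
    · exact le_rfl
  have hκ0 : ∀ b a, 0 ≤ κ b a := fun b a => by
    simp only [κ]
    split_ifs
    · positivity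
    · positivity
  have hT1 : ∀ b, ∑ b' ∈ S, T b b' ≤ 1 := by
    intro b
    simp only [T]
    rw [← Finset.sum_filter, Finset.sum_const, nsmul_eq_mul, mul_one_div]
    refine div_le_one_of_le₀ ?_ (Nat.cast_nonneg _)
    exact_mod_cast Finset.card_le_card fun x hx => (Finset.mem_filter.1 hx).2
  have hκ1 : ∀ b, ∑ a, κ b a = 1 := by
    intro b
    simp only [κ, Finset.sum_add_distrib, Finset.sum_ite_eq', Finset.mem_univ, if_true,
      Finset.sum_const, Finset.card_univ, Fintype.card_fin, nsmul_eq_mul, hε]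
    field_simp
    ring
  let η : ℕ → ℂ × ℂ → (Fin 4 → ℤ) × ℕ := fun j z => (cell δ (henon^[m * (j / m)] z), j % m)
  let c : ℂ × ℂ → ℝ := fun z => 88 + 4 * ∑ i ∈ Finset.range m, (4 * wt (henon^[i] z) + 4 * τ)
  let ind : ℂ × ℂ → ℝ := fun z => τ + Kᶜ.indicator (fun _ => Λ) z
  let u : ℕ → ℂ × ℂ → ℝ := fun j z =>
    ind (henon^[j] z) + if m ∣ j + 1 then c (henon^[m * (j / m)] z) else 0
  have hi1 : Integrable (Kᶜ.indicator fun _ : ℂ × ℂ => Λ) ν :=
    (integrable_const Λ).indicator hKm.compl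
  have hind : Integrable ind ν := (integrable_const τ).add hi1
  have hindint : ∫ z, ind z ∂ν ≤ 2 * τ := by
    simp only [ind]
    rw [integral_add (integrable_const τ) hi1, integral_const,
      integral_indicator_const _ hKm.compl]
    simp only [probReal_univ, smul_eq_mul, one_mul]
    have h1 : ν.real Kᶜ * Λ ≤ τ / (Λ + 1) * (Λ + 1) :=
      mul_le_mul hKν (by linarith only [he0, he1]) hΛ0 (by positivity)
    rw [div_mul_cancel₀ _ (by positivity)] at h1
    linarith only [h1]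
  have hw1 : ∀ i, Integrable (fun z => 4 * wt (henon^[i] z) + 4 * τ) ν := fun i =>
    ((integral_iterate hf (wt_integrable ν) i).1.const_mul 4).add (integrable_const _)
  have hw2 : Integrable (fun z => 4 * ∑ i ∈ Finset.range m, (4 * wt (henon^[i] z) + 4 * τ)) ν :=
    (integrable_finsetSum _ fun i _ => hw1 i).const_mul 4
  have hc : Integrable c ν := (integrable_const _).add hw2
  have hcint : ∫ z, c z ∂ν = 88 + m * (16 * ∫ z, wt z ∂ν + 16 * τ) := by
    simp only [c]
    rw [integral_add (integrable_const _) hw2, integral_const_mul,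
      integral_finsetSum _ fun i _ => hw1 i]
    have : ∀ i, ∫ z, (4 * wt (henon^[i] z) + 4 * τ) ∂ν = 4 * ∫ z, wt z ∂ν + 4 * τ := fun i => by
      rw [integral_add ((integral_iterate hf (wt_integrable ν) i).1.const_mul 4)
        (integrable_const _), integral_const_mul, (integral_iterate hf (wt_integrable ν) i).2]
      simp
    simp only [this, Finset.sum_const, Finset.card_range, nsmul_eq_mul, integral_const,
      probReal_univ, one_smul]
    ring
  have hite : ∀ j, Integrable (fun z => if m ∣ j + 1 then c (henon^[m * (j / m)] z) else 0) ν ∧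
      ∫ z, (if m ∣ j + 1 then c (henon^[m * (j / m)] z) else 0) ∂ν =
        if m ∣ j + 1 then ∫ z, c z ∂ν else 0 := by
    intro j
    split_ifs
    · exact integral_iterate hf hc _
    · simp
  have hu : ∀ j, Integrable (u j) ν := fun j => (integral_iterate hf hind j).1.add (hite j).1
  have hW : 0 ≤ ∫ z, wt z ∂ν := integral_nonneg wt_nonneg
  have husum : ∀ n : ℕ, ∑ j ∈ Finset.range n, ∫ z, u j z ∂ν ≤
      n * (19 * τ + 16 * ∫ z, wt z ∂ν) := by
    intro n
    have h1 : ∀ j, ∫ z, u j z ∂ν ≤ 2 * τ + if m ∣ j + 1 then ∫ z, c z ∂ν else 0 := by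
      intro j
      simp only [u]
      rw [integral_add (integral_iterate hf hind j).1 (hite j).1, (hite j).2,
        (integral_iterate hf hind j).2]
      linarith only [hindint]
    refine (Finset.sum_le_sum fun j _ => h1 j).trans ?_
    rw [Finset.sum_add_distrib, ← Finset.sum_filter, Finset.sum_const, Finset.sum_const,
      Finset.card_range, Nat.card_multiples, nsmul_eq_mul, nsmul_eq_mul, hcint]
    have h2 : ((n / m : ℕ) : ℝ) ≤ n / m := Nat.cast_div_le
    have h3 : 88 ≤ m * τ := by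
      rw [div_lt_iff₀ hτ] at hm
      linarith only [hm]
    have h4 : ((n / m : ℕ) : ℝ) * (88 + m * (16 * ∫ z, wt z ∂ν + 16 * τ)) ≤
        n / m * (m * (16 * ∫ z, wt z ∂ν + 17 * τ)) :=
      mul_le_mul h2 (by linarith only [h3]) (by positivity) (by positivity)
    rw [← mul_assoc, div_mul_cancel₀ _ hm0'.ne'] at h4
    linarith only [h4]
  have hae : ∀ᵐ z ∂ν, ∀ j, η j z ∈ S ∧
      Real.exp (-u j z) ≤ T (η j z) (η (j + 1) z) * κ (η j z) (ξ (henon^[j] z)) := by
    have hG : ∀ᵐ z ∂ν, Gd z :=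
      ae_all_iff.2 fun j => (hf.iterate j).quasiMeasurePreserving.ae (ae_bounded hf)
    filter_upwards [hG] with z hz j
    set x := henon^[m * (j / m)] z with hx
    have hxG : Gd x := hz.iterate _
    have hjx : henon^[j] z = henon^[j % m] x := by
      rw [hx, ← Function.iterate_add_apply, Nat.mod_add_div]
    have hjm : j % m < m := Nat.mod_lt j hm0
    refine ⟨Finset.mem_product.2 ⟨hS₀ _ hxG, Finset.mem_range.2 hjm⟩, ?_⟩
    have hA : Real.exp (-(if m ∣ j + 1 then c x else 0)) ≤ T (η j z) (η (j + 1) z) := by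
      by_cases hd : m ∣ j + 1
      · have e1 : (j + 1) / m = j / m + 1 := Nat.succ_div_of_dvd hd
        have e2 : (j + 1) % m = 0 := Nat.mod_eq_zero_of_dvd hd
        have e3 : j % m + 1 = m := by
          have h1 := Nat.mod_add_div (j + 1) m
          have h2 := Nat.mod_add_div j m
          rw [e1, e2, mul_add] at h1
          omega
        have e4 : η (j + 1) z = (cell δ (henon^[m] x), 0) := by
          simp only [η]
          rw [e1, e2, hx, ← Function.iterate_add_apply, mul_add, mul_one, add_comm]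
        have e5 : nb (η j z) = (nb₀ (cell δ x)).image (fun c => (c, 0)) := if_pos e3
        have hmem : cell δ (henon^[m] x) ∈ nb₀ (cell δ x) :=
          Finset.mem_filter.2 ⟨hS₀ _ (hxG.iterate m), x, hxG, rfl, rfl⟩
        set E := ∑ i ∈ Finset.range m, (4 * wt (henon^[i] x) + 4 * τ) with hE
        have hE0 : 0 ≤ E := Finset.sum_nonneg fun i _ => by
          have := wt_nonneg (henon^[i] x)
          positivity
        have hsub : nb₀ (cell δ x) ⊆ box (cell δ (henon^[m] x)) ⌈10 * Real.exp E⌉₊ := by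
          intro c' hc'
          obtain ⟨w, hw1, hw2, rfl⟩ := (Finset.mem_filter.1 hc').2
          have h1 := fine hxG hw1 ((hclose _ _ hw2.symm).trans (min_le_left _ _)) m le_rfl
          have h2 := cell_nrm hδ hw2.symm
          have h3 : nrm (henon^[m] x - henon^[m] w) ≤ Real.exp E * (4 * δ) :=
            h1.trans (mul_le_mul_of_nonneg_left h2 (Real.exp_pos _).le)
          have h4 := fst_le_nrm (henon^[m] x - henon^[m] w)
          have h5 := snd_le_nrm (henon^[m] x - henon^[m] w)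
          have h6 : 10 * Real.exp E * δ ≤ ⌈10 * Real.exp E⌉₊ * δ :=
            mul_le_mul_of_nonneg_right (Nat.le_ceil _) hδ.le
          have h7 : 0 < Real.exp E * δ := by positivity
          simp only [Prod.fst_sub, Prod.snd_sub] at h4 h5
          apply mem_box hδ
          · rw [norm_sub_rev]
            linarith only [h3, h4, h6, h7]
          · rw [norm_sub_rev]
            linarith only [h3, h5, h6, h7]
        have hcard : ((nb (η j z)).card : ℝ) ≤ Real.exp (c x) := by
          rw [e5]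
          refine le_trans ?_ (card_bound hE0)
          rw [← card_box (cell δ (henon^[m] x))]
          exact_mod_cast Finset.card_image_le.trans (Finset.card_le_card hsub)
        have hin : η (j + 1) z ∈ nb (η j z) := by
          rw [e4, e5]
          exact Finset.mem_image_of_mem _ hmem
        have hpos : (0 : ℝ) < (nb (η j z)).card := by exact_mod_cast Finset.card_pos.2 ⟨_, hin⟩
        simp only [T]
        rw [if_pos hin, if_pos hd, Real.exp_neg, ← one_div]
        exact one_div_le_one_div_of_le hpos hcard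
      · have e1 : (j + 1) / m = j / m := Nat.succ_div_of_not_dvd hd
        have e2 : (j + 1) % m = j % m + 1 := by
          have h1 := Nat.mod_add_div (j + 1) m
          have h2 := Nat.mod_add_div j m
          rw [e1] at h1
          omega
        have e3 : ¬ j % m + 1 = m := by
          have := Nat.mod_lt (j + 1) hm0
          omega
        have e5 : nb (η j z) = {η (j + 1) z} := by
          simp only [nb, η]
          rw [if_neg e3, e1, e2]
        simp only [T]
        rw [e5, if_neg hd]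
        simp
    have hB : Real.exp (-(ind (henon^[j] z))) ≤ κ (η j z) (ξ (henon^[j] z)) := by
      simp only [ind]
      by_cases hzK : henon^[j] z ∈ K
      · have hex : ∃ w, Gd w ∧ cell δ w = (η j z).1 ∧ henon^[(η j z).2] w ∈ K :=
          ⟨x, hxG, rfl, hjx ▸ hzK⟩
        have hg : g (η j z) = ξ (henon^[j % m] hex.choose) := dif_pos hex
        have h1 : ξ (henon^[j] z) = g (η j z) := by
          rw [hg]
          refine hsep _ hzK _ hex.choose_spec.2.2 ?_
          have h2 := crude hxG hex.choose_spec.1 (j % m)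
          have h3 := (hclose _ _ hex.choose_spec.2.1.symm).trans (min_le_right _ _)
          have h4 : 13 ^ (j % m) * nrm (x - hex.choose) ≤ 13 ^ m * nrm (x - hex.choose) :=
            mul_le_mul_of_nonneg_right (pow_le_pow_right₀ (by norm_num) hjm.le) (nrm_nonneg _)
          have h5 := fst_le_nrm (henon^[j % m] x - henon^[j % m] hex.choose)
          have h6 := snd_le_nrm (henon^[j % m] x - henon^[j % m] hex.choose)
          simp only [Prod.fst_sub, Prod.snd_sub] at h5 h6
          rw [hjx, Prod.dist_eq, dist_eq_norm, dist_eq_norm]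
          exact max_le (by linarith only [hex, hδ₀, h2, h3, h4, h5]) (by linarith only [hex, hδ₀, h2, h3, h4, h6])
        rw [Set.indicator_of_notMem (by simpa using hzK), add_zero]
        simp only [κ]
        rw [if_pos h1]
        linarith only [hε0]
      · rw [Set.indicator_of_mem (by simpa using hzK), neg_add, Real.exp_add, hΛ, neg_neg,
          Real.exp_log hε0]
        have h1 : 0 ≤ if ξ (henon^[j] z) = g (η j z) then e else 0 := by
          split_ifs
          · exact he0.le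
          · exact le_rfl
        simp only [κ]
        linarith only [h1, he1, hε0, mul_pos_of_neg_of_neg (Mathlib.Tactic.Linarith.sub_neg_of_lt he1) (Mathlib.Tactic.Linarith.sub_neg_of_lt hε0)]
    simp only [u]
    rw [neg_add, Real.exp_add, mul_comm]
    exact mul_le_mul hA hB (Real.exp_pos _).le (hT0 _ _)
  have key := blockEntropy_le hf.measurable hξ S (fun b a b' => T b b' * κ b a)
    (fun b a b' => mul_nonneg (hT0 _ _) (hκ0 _ _)) (fun b => by
      simp only [← Finset.sum_mul, ← Finset.mul_sum, hκ1, mul_one]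
      exact hT1 b) η u hu hae
  exact limsup_le_of_le fun n => (key n).trans (add_le_add_right (husum n) _)

theorem ksEntropy_le {ν : Measure (ℂ × ℂ)} [IsProbabilityMeasure ν]
    (hf : MeasurePreserving henon ν ν) :
    ksEntropy henon ν ≤ ((16 * ∫ z, wt z ∂ν : ℝ) : EReal) := by
  refine iSup_le fun k => iSup_le fun ξ => iSup_le fun hξ => ?_
  refine le_of_forall_gt_imp_ge_of_dense fun c hc => ?_
  induction c with
  | bot => exact absurd hc (not_lt_bot)
  | top => exact le_top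
  | coe c =>
    have hc' := EReal.coe_lt_coe_iff.1 hc
    refine (limsup_block_le hf hξ (τ := (c - 16 * ∫ z, wt z ∂ν) / 19) (by linarith only [hc'])).trans ?_
    exact EReal.coe_le_coe_iff.2 (by linarith)

end Pool.Agent.Work.MP_636246_an
end

-- merged part: Pool.Agent.Work.MP_636246_an.Main
section
/-!
Finiteness of periodic points and the main statement.
-/

open MeasureTheory Filter Topology

namespace Pool.Agent.Work.MP_636246_an

theorem finite_periodic {n : ℕ} (hn : 0 < n) : {z : ℂ × ℂ | henon^[n] z = z}.Finite := by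
  classical
  let S := {z : ℂ × ℂ // henon^[n] z = z}
  let Y : ℕ → S → ℂ := fun j z => (henon^[j] z.1).1
  have hper : ∀ j, Y (j + n) = Y j := fun j => funext fun z => by
    simp only [Y]
    rw [Function.iterate_add_apply, z.2]
  have hmod : ∀ j, Y (j % n) = Y j := by
    intro j
    have : ∀ q r, Y (r + q * n) = Y r := by
      intro q r
      induction q with
      | zero => simp
      | succ q ih => rw [Nat.succ_mul, ← add_assoc, hper, ih]
    conv_rhs => rw [← Nat.mod_add_div' j n]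
    exact (this _ _).symm
  have hrec : ∀ j, Y (j + 1) * Y (j + 1) =
      Y (j + 2) + (-9 / 8 : ℂ) • Y (j + 1) + (1 / 8 : ℂ) • Y j := fun j => funext fun z => by
    simp only [Y, Pi.mul_apply, Pi.add_apply, Pi.smul_apply, smul_eq_mul]
    rw [show j + 2 = (j + 1) + 1 from rfl]
    simp only [Function.iterate_succ_apply', henon]
    ring
  let M : Submodule ℂ (S → ℂ) :=
    Submodule.span ℂ (((Finset.range n).powerset.image fun T => ∏ j ∈ T, Y j : Finset (S → ℂ)) :
      Set (S → ℂ))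
  have hgen : ∀ T ⊆ Finset.range n, ∏ j ∈ T, Y j ∈ M := fun T hT =>
    Submodule.subset_span (Finset.mem_coe.2 (Finset.mem_image.2 ⟨T, Finset.mem_powerset.2 hT, rfl⟩))
  have hmul : ∀ d, ∀ T ⊆ Finset.range n, T.card ≤ d → ∀ i, Y i * ∏ j ∈ T, Y j ∈ M := by
    intro d
    induction d with
    | zero =>
      intro T hT hc i
      have : T = ∅ := Finset.card_eq_zero.1 (by omega)
      subst this
      have := hgen {i % n} (by simpa using Nat.mod_lt i hn)
      simpa [hmod] using this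
    | succ d ih =>
      intro T hT hc i
      rw [← hmod i]
      by_cases hi : i % n ∈ T
      · rw [← Finset.mul_prod_erase T Y hi, ← mul_assoc]
        have e : Y (i % n) = Y ((i % n + n - 1) + 1) := by
          rw [show i % n + n - 1 + 1 = i % n + n by omega, hper]
        have hsub : T.erase (i % n) ⊆ Finset.range n := (Finset.erase_subset _ _).trans hT
        have hcard : (T.erase (i % n)).card ≤ d := by
          rw [Finset.card_erase_of_mem hi]
          omega
        rw [e, hrec, add_mul, add_mul, smul_mul_assoc, smul_mul_assoc]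
        exact M.add_mem (M.add_mem (ih _ hsub hcard _) (M.smul_mem _ (ih _ hsub hcard _)))
          (M.smul_mem _ (ih _ hsub hcard _))
      · rw [← Finset.prod_insert hi]
        exact hgen _ (Finset.insert_subset (Finset.mem_range.2 (Nat.mod_lt i hn)) hT)
  have hmul' : ∀ i, ∀ m ∈ M, Y i * m ∈ M := by
    intro i m hm
    refine Submodule.span_induction (p := fun m _ => Y i * m ∈ M) ?_ ?_ ?_ ?_ hm
    · intro x hx
      obtain ⟨T, hT, rfl⟩ := Finset.mem_image.1 (Finset.mem_coe.1 hx)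
      exact hmul _ T (Finset.mem_powerset.1 hT) le_rfl i
    · simp
    · intro x y _ _ h1 h2
      rw [mul_add]
      exact M.add_mem h1 h2
    · intro a x _ h
      rw [mul_smul_comm]
      exact M.smul_mem _ h
  have hpow : ∀ i m, Y i ^ m ∈ M := by
    intro i m
    induction m with
    | zero => simpa using hgen ∅ (Finset.empty_subset _)
    | succ m ih =>
      rw [pow_succ']
      exact hmul' i _ ih
  have halg : ∀ i, IsAlgebraic ℂ (Y i) := by
    intro i
    rw [isAlgebraic_iff_not_injective]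
    intro hinj
    have hmem : ∀ p : Polynomial ℂ, (Polynomial.aeval (Y i)).toLinearMap p ∈ M := by
      intro p
      simp only [AlgHom.toLinearMap_apply]
      rw [Polynomial.aeval_eq_sum_range]
      exact M.sum_mem fun m _ => M.smul_mem _ (hpow i m)
    have : Module.Finite ℂ M := Module.Finite.span_of_finite ℂ (Finset.finite_toSet _)
    have : Module.Finite ℂ (Polynomial ℂ) :=
      Module.Finite.of_injective (LinearMap.codRestrict M _ hmem) fun p q h =>
        hinj (congrArg Subtype.val h)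
    exact Polynomial.not_finite this
  have hroot : ∀ i, ∃ F : Set ℂ, F.Finite ∧ ∀ z, Y i z ∈ F := by
    intro i
    obtain ⟨p, hp, h⟩ := halg i
    refine ⟨p.rootSet ℂ, p.rootSet_finite ℂ, fun z => ?_⟩
    rw [Polynomial.mem_rootSet]
    refine ⟨hp, ?_⟩
    have := congrFun h z
    rw [Polynomial.aeval_fn_apply] at this
    exact this
  obtain ⟨F₀, h₀, h₀'⟩ := hroot 0
  obtain ⟨F₁, h₁, h₁'⟩ := hroot 1
  exact (h₀.prod h₁).subset fun z hz => ⟨h₀' ⟨z, hz⟩, h₁' ⟨z, hz⟩⟩

theorem saddles_zero : saddles henon 0 = ∅ := by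
  ext z
  simp only [Set.mem_empty_iff_false, iff_false]
  rintro ⟨-, l, m, hl, -, hev, -⟩
  obtain ⟨v, hv⟩ := hev.exists_hasEigenvector
  have h1 := hv.apply_eq_smul
  simp only [Function.iterate_zero, fderiv_id, ContinuousLinearMap.coe_id, LinearMap.id_coe,
    id_eq] at h1
  have h2 := congrArg nrm h1
  rw [nrm_smul] at h2
  have h3 : 0 < nrm v := lt_of_not_ge fun h => hv.2 (nrm_eq_zero h)
  nlinarith

theorem finite_saddles (n : ℕ) : (saddles henon n).Finite := by
  rcases Nat.eq_zero_or_pos n with rfl | hn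
  · rw [saddles_zero]
    exact Set.finite_empty
  · exact (finite_periodic hn).subset fun z hz => hz.1

/-- The weights. -/
noncomputable def phi (t : ℝ) (z : ℂ × ℂ) : ℝ := -t * wt z

theorem phi_holder {t : ℝ} (ht : 0 ≤ t) (α : ℝ) (h0 : 0 < α) (h1 : α ≤ 1) (z w : ℂ × ℂ) :
    |phi t z - phi t w| ≤ 3 * t * Real.sqrt (‖z.1 - w.1‖ ^ 2 + ‖z.2 - w.2‖ ^ 2) ^ α := by
  set d := Real.sqrt (‖z.1 - w.1‖ ^ 2 + ‖z.2 - w.2‖ ^ 2) with hd
  have hd0 : 0 ≤ d := Real.sqrt_nonneg _
  have hd1 : ‖z.2 - w.2‖ ≤ d := Real.le_sqrt_of_sq_le (by linarith only [sq_nonneg ‖z.1 - w.1‖, sq_nonneg ‖z.1 - w.1‖])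
  have h2 : |wt z - wt w| ≤ d := by
    refine (abs_min_sub_min_le_max _ _ _ _).trans
      (max_le ((abs_norm_sub_norm_le z.2 w.2).trans hd1) ?_)
    simpa using hd0
  have h3 : |wt z - wt w| ≤ 3 := by
    have := wt_nonneg z
    have := wt_nonneg w
    have := wt_le z
    have := wt_le w
    rw [abs_le]
    constructor <;> linarith
  have h4 : |wt z - wt w| ≤ 3 * d ^ α := by
    rcases le_total d 1 with h | h
    · have := Real.self_le_rpow_of_le_one hd0 h h1
      linarith only [hd0, h2, this]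
    · have := Real.one_le_rpow h h0.le
      linarith only [h3, this]
  have e : phi t z - phi t w = -t * (wt z - wt w) := by
    simp only [phi]
    ring
  rw [e, abs_mul, abs_neg, abs_of_nonneg ht]
  linarith only [ht, h4, mul_nonneg_of_nonpos_of_nonpos (Mathlib.Tactic.Linarith.sub_nonpos_of_le ht) (Mathlib.Tactic.Linarith.sub_nonpos_of_le h4)]

theorem phi_bdd {t : ℝ} (ht : 0 ≤ t) (z : ℂ × ℂ) : |phi t z| ≤ 3 * t := by
  have h1 := wt_nonneg z
  have h2 := wt_le z
  rw [phi, abs_mul, abs_neg, abs_of_nonneg ht, abs_of_nonneg h1]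
  linarith only [ht, h2, mul_nonneg_of_nonpos_of_nonpos (Mathlib.Tactic.Linarith.sub_nonpos_of_le ht) (Mathlib.Tactic.Linarith.sub_nonpos_of_le h2)]

theorem wt_zero : wt 0 = 0 := by simp [wt]

theorem freeEnergy_le {t : ℝ} (ht : 17 ≤ t) {ν : Measure (ℂ × ℂ)} (hν : ν ∈ invProb henon) :
    freeEnergy henon (phi t) ν ≤ ((-∫ z, wt z ∂ν : ℝ) : EReal) := by
  have := hν.1
  have h1 := ksEntropy_le hν.2
  have h2 : ∫ z, phi t z ∂ν = -t * ∫ z, wt z ∂ν := integral_const_mul _ _
  have h3 : 0 ≤ ∫ z, wt z ∂ν := integral_nonneg wt_nonneg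
  unfold freeEnergy
  rw [h2]
  refine (add_le_add_left h1 _).trans ?_
  rw [← EReal.coe_add, EReal.coe_le_coe_iff]
  linarith only [ht, h3, mul_nonneg_of_nonpos_of_nonpos (Mathlib.Tactic.Linarith.sub_nonpos_of_le ht) (Mathlib.Tactic.Linarith.sub_nonpos_of_le h3)]

theorem dirac_mem : Measure.dirac (0 : ℂ × ℂ) ∈ invProb henon := by
  refine ⟨inferInstance, henon_continuous.measurable, ?_⟩
  rw [Measure.map_dirac' henon_continuous.measurable, henon_zero]

theorem freeEnergy_nonpos {t : ℝ} (ht : 17 ≤ t) {ν : Measure (ℂ × ℂ)} (hν : ν ∈ invProb henon) :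
    freeEnergy henon (phi t) ν ≤ 0 := by
  refine (freeEnergy_le ht hν).trans ?_
  have : 0 ≤ ∫ z, wt z ∂ν := integral_nonneg wt_nonneg
  exact EReal.coe_nonpos.2 (by linarith)

theorem freeEnergy_dirac {t : ℝ} (ht : 17 ≤ t) :
    freeEnergy henon (phi t) (Measure.dirac 0) = 0 := by
  refine le_antisymm (freeEnergy_nonpos ht dirac_mem) ?_
  unfold freeEnergy
  rw [integral_dirac]
  simp only [phi, wt_zero, mul_zero, EReal.coe_zero, add_zero]
  exact ksEntropy_nonneg _ _

theorem pressure_eq {t : ℝ} (ht : 17 ≤ t) : pressure henon (phi t) = ((0 : ℝ) : EReal) := by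
  refine le_antisymm (iSup₂_le fun ν hν => freeEnergy_nonpos ht hν) ?_
  exact le_iSup₂_of_le _ dirac_mem (freeEnergy_dirac ht).ge

theorem unique_eq {t : ℝ} (ht : 17 ≤ t) (ν : Measure (ℂ × ℂ)) :
    (ν ∈ invProb henon ∧ freeEnergy henon (phi t) ν = ((0 : ℝ) : EReal)) ↔
      ν = Measure.dirac 0 := by
  constructor
  · rintro ⟨hν, h⟩
    have := hν.1
    have h1 := freeEnergy_le ht hν
    rw [h, EReal.coe_le_coe_iff] at h1
    have h2 : ∫ z, wt z ∂ν = 0 := le_antisymm (by linarith) (integral_nonneg wt_nonneg)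
    have h3 := (integral_eq_zero_iff_of_nonneg wt_nonneg (wt_integrable ν)).1 h2
    have h3' : ∀ᵐ z ∂ν, z.2 = 0 := by
      filter_upwards [h3] with z hz
      have hz' : min ‖z.2‖ 3 = 0 := hz
      rcases min_eq_iff.1 hz' with h | h
      · exact norm_eq_zero.1 h.1
      · norm_num at h
    have h4 : id =ᵐ[ν] fun _ => (0 : ℂ × ℂ) := by
      filter_upwards [h3', hν.2.quasiMeasurePreserving.ae h3'] with z hz1 hz2
      simp only [henon, hz1] at hz2
      ext
      · simpa using hz2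
      · exact hz1
    have h5 : ν.map id = ν.map (fun _ => (0 : ℂ × ℂ)) := Measure.map_congr h4
    rw [Measure.map_id, Measure.map_const] at h5
    simpa using h5
  · rintro rfl
    exact ⟨dirac_mem, freeEnergy_dirac ht⟩

/-- The test function. -/
noncomputable def bump : CompactlySupportedContinuousMap (ℂ × ℂ) ℝ where
  toFun z := 1 - min ‖z‖ 1
  continuous_toFun := continuous_const.sub (continuous_norm.min continuous_const)
  hasCompactSupport' := by
    refine HasCompactSupport.intro (isCompact_closedBall (0 : ℂ × ℂ) 1) fun z hz => ?_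
    rw [mem_closedBall_zero_iff, not_le] at hz
    simp only [min_eq_right hz.le]
    norm_num

theorem bump_nonneg (z : ℂ × ℂ) : 0 ≤ bump z := sub_nonneg.2 (min_le_right _ _)

/-- The weighted sums tested on the bump function. -/
noncomputable def Zs (t : ℝ) (n : ℕ) : ℝ := Real.exp (-(n : ℝ) * 0) *
  ∑ᶠ z ∈ saddles henon n, Real.exp (∑ j ∈ Finset.range n, phi t (henon^[j] z)) * bump z

theorem Zs_le {n : ℕ} (hn : 0 < n) : Zs 34 n ≤ Real.exp (-17 / 8) * Zs 17 n := by
  simp only [Zs, mul_zero, Real.exp_zero, one_mul]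
  rw [finsum_mem_eq_finite_toFinset_sum _ (finite_saddles n),
    finsum_mem_eq_finite_toFinset_sum _ (finite_saddles n), Finset.mul_sum]
  refine Finset.sum_le_sum fun z hz => ?_
  have h1 := saddle_far hn ((Set.Finite.mem_toFinset _).1 hz)
  rw [← mul_assoc, ← Real.exp_add]
  refine mul_le_mul_of_nonneg_right (Real.exp_le_exp.2 ?_) (bump_nonneg z)
  simp only [phi, ← Finset.mul_sum]
  linarith only [h1]

theorem not_tendsto : ∃ t : ℝ, 17 ≤ t ∧
    ¬ Tendsto (Zs t) atTop (𝓝 (∫ z, bump z ∂(Measure.dirac 0))) := by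
  have h1 : ∫ z, bump z ∂(Measure.dirac (0 : ℂ × ℂ)) = 1 := by
    rw [integral_dirac]
    change 1 - min ‖(0 : ℂ × ℂ)‖ 1 = 1
    simp
  rw [h1]
  by_contra H
  push Not at H
  have h2 := H 34 (by norm_num)
  have h3 := (H 17 le_rfl).const_mul (Real.exp (-17 / 8))
  have h4 := le_of_tendsto_of_tendsto h2 h3
    ((eventually_gt_atTop 0).mono fun n hn => Zs_le hn)
  have h5 : Real.exp (-17 / 8) < 1 := Real.exp_lt_one_iff.2 (by norm_num)
  linarith only [h4, h5]

end Pool.Agent.Work.MP_636246_an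
end
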